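import Pool.Agent.helper62.VN.SpecE
import Pool.Agent.helper3.VQE.UWM

/-!
# Row vne:NUW (MP_07c750_an): uniform weak law along unstable curves, all negatively curved flows
-/

set_option autoImplicit false

open scoped MatrixGroups ContDiff Topology UpperHalfPlane
open UpperHalfPlane MeasureTheory Filter Set

namespace Pool.Agent.VNE

open Pool.Agent.RS Pool.Agent.VQE

noncomputable section

theorem NUW_dg {b c M : ℝ} (hb : |b| ≤ M) (hc : |c| ≤ M) : ∀ i j, |(dg b c).1 i j| ≤ 1 + M + M ^ 2 := by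
  have hM : 0 ≤ M := (abs_nonneg _).trans hb
  have hM2 : 0 ≤ M ^ 2 := sq_nonneg _
  by_cases h : 0 ≤ 1 + b * c
  · have hbc : b * c ≤ M ^ 2 := by
      calc b * c ≤ |b * c| := le_abs_self _
        _ = |b| * |c| := abs_mul _ _
        _ ≤ M * M := mul_le_mul hb hc (abs_nonneg _) hM
        _ = M ^ 2 := by ring
    have hs : √(1 + b * c) ≤ 1 + M ^ 2 := by
      rw [Real.sqrt_le_iff]
      constructor
      · linarith
      · nlinarith
    have hs0 : 0 ≤ √(1 + b * c) := Real.sqrt_nonneg _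
    have e : (dg b c).1 = !![√(1 + b * c), b; c, √(1 + b * c)] := by
      unfold dg
      rw [dif_pos h]
    rw [e]
    intro i j
    fin_cases i <;> fin_cases j
    · show |√(1 + b * c)| ≤ 1 + M + M ^ 2
      rw [abs_of_nonneg hs0]
      linarith
    · show |b| ≤ 1 + M + M ^ 2
      linarith
    · show |c| ≤ 1 + M + M ^ 2
      linarith
    · show |√(1 + b * c)| ≤ 1 + M + M ^ 2
      rw [abs_of_nonneg hs0]
      linarith
  · have e : dg b c = 1 := by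
      unfold dg
      rw [dif_neg h]
    rw [e]
    intro i j
    fin_cases i <;> fin_cases j
    · show |(1 : ℝ)| ≤ 1 + M + M ^ 2
      rw [abs_one]
      linarith
    · show |(0 : ℝ)| ≤ 1 + M + M ^ 2
      rw [abs_zero]
      linarith
    · show |(0 : ℝ)| ≤ 1 + M + M ^ 2
      rw [abs_zero]
      linarith
    · show |(1 : ℝ)| ≤ 1 + M + M ^ 2
      rw [abs_one]
      linarith

theorem NUW_div {K p x y : ℝ} (hK : 1 ≤ K) (hp : 1 / K ≤ p) (hx : |x| ≤ y) : |x / p| ≤ y * K := by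
  have hK0 : 0 < K := by linarith
  have h0 : 0 < 1 / K := by positivity
  have hp0 : 0 < p := by linarith
  have hy : 0 ≤ y := (abs_nonneg _).trans hx
  rw [abs_div, abs_of_pos hp0, div_le_iff₀ hp0]
  have h1 : 1 ≤ K * p := by
    rw [div_le_iff₀ hK0] at hp
    linarith
  calc |x| ≤ y * 1 := by linarith
    _ ≤ y * (K * p) := mul_le_mul_of_nonneg_left h1 hy
    _ = y * K * p := by ring

theorem NUW_pj {K C : ℝ} {X : Fd} (hK : 1 ≤ K) (hX : HF K X) (g : SL(2, ℝ)) {J W : ℝ} (hJ : |J| ≤ 1) (hW : |W| ≤ C) :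
    ∀ i j, |(pj X g J W).1 i j| ≤ 1 + (C + (1 + K) * K) + (C + (1 + K) * K) ^ 2 := by
  have hm := (hX.qb g).2.1
  have hK0 : 0 < K := by linarith
  have hC0 : 0 ≤ C := (abs_nonneg _).trans hW
  have h1 : |(1 + X.m g) * J| ≤ 1 + K := by
    rw [abs_mul]
    have h2 : |1 + X.m g| ≤ 1 + K := (abs_add_le _ _).trans (by rw [abs_one]; linarith)
    calc |1 + X.m g| * |J| ≤ (1 + K) * 1 := mul_le_mul h2 hJ (abs_nonneg _) (by linarith)
      _ = 1 + K := mul_one _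
  have h1' : |(1 - X.m g) * J| ≤ 1 + K := by
    rw [abs_mul]
    have h2 : |1 - X.m g| ≤ 1 + K := (abs_sub _ _).trans (by rw [abs_one]; linarith)
    calc |1 - X.m g| * |J| ≤ (1 + K) * 1 := mul_le_mul h2 hJ (abs_nonneg _) (by linarith)
      _ = 1 + K := mul_one _
  have h3 := NUW_div hK (hX.pb g).1 h1
  have h3' := NUW_div hK (hX.pb g).1 h1'
  have h4 : 0 ≤ (1 + K) * K := by positivity
  refine NUW_dg ?_ ?_
  · unfold bj
    rw [abs_div, abs_two]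
    have h5 := abs_sub W ((1 + X.m g) * J / X.p g)
    linarith
  · unfold cj
    rw [abs_div, abs_two]
    have h5 := abs_sub (-W) ((1 - X.m g) * J / X.p g)
    rw [abs_neg] at h5
    linarith

/-- the bound of the entries of `(γ v)⁻¹ * γ v'` -/
def NUW_R (K C1 : ℝ) : ℝ := C1 ^ 2 + 1 + (K * C1 + C1 ^ 2 + K ^ 2 * C1 + 2 * K ^ 2 * C1 ^ 2)

theorem NUW_ent {K C1 : ℝ} {X : Fd} {γ : ℝ → SL(2, ℝ)} (hK : 1 ≤ K) (hX : HF K X) (hγ : UCX C1 X γ) (hC : 1 ≤ C1) {v v' : ℝ} (h0 : 0 ≤ v)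
    (hv : v < v') (h1 : v' ≤ 1) : ∀ i j, |((γ v)⁻¹ * γ v').1 i j| ≤ NUW_R K C1 := by
  obtain ⟨D, hD⟩ : ∃ D, D = (γ v)⁻¹ * γ v' := ⟨_, rfl⟩
  obtain ⟨k1, k2, k3, k4, k5⟩ := hγ.cone v v' h0 hv h1 D hD
  rw [← hD]
  obtain ⟨p1, -⟩ := hX.pb (γ v)
  obtain ⟨q1, m1, -⟩ := hX.qb (γ v)
  have hK0 : 0 < K := by linarith
  have hC0 : 0 < C1 := by linarith
  have hp0 : 0 < X.p (γ v) := lt_of_lt_of_le (by positivity) p1
  obtain ⟨J, hJ⟩ : ∃ J, J = Jd X (γ v) D := ⟨_, rfl⟩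
  obtain ⟨W, hW⟩ : ∃ W, W = Wd X (γ v) D := ⟨_, rfl⟩
  rw [← hJ] at k1 k2 k3 k4 k5
  rw [← hW] at k3 k4
  have hJ0 : 0 < J := lt_of_lt_of_le (div_pos (by linarith) hC0) k1
  have hJ1 : J ≤ C1 := k2.trans (by nlinarith)
  have hW0 : 0 ≤ W := by
    by_contra hcon
    push Not at hcon
    nlinarith
  have hW1 : W ≤ C1 ^ 2 := by nlinarith
  have hx : |D.1 0 0 - D.1 1 1| ≤ C1 ^ 2 := by nlinarith
  -- the sum
  have hs : D.1 0 1 + D.1 1 0 = -J / X.p (γ v) := by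
    rw [hJ]
    unfold Jd
    field_simp
  have hs1 : |D.1 0 1 + D.1 1 0| ≤ C1 * K := by
    rw [hs]
    exact NUW_div hK p1 (by rw [abs_neg, abs_of_pos hJ0]; exact hJ1)
  -- the difference
  have hd : D.1 0 1 - D.1 1 0 = W + X.m (γ v) * (D.1 0 1 + D.1 1 0) - 2 * X.q (γ v) * (D.1 0 0 - D.1 1 1) / X.p (γ v) := by
    rw [hW]
    unfold Wd
    ring
  have hq : |2 * X.q (γ v) * (D.1 0 0 - D.1 1 1) / X.p (γ v)| ≤ 2 * K * C1 ^ 2 * K := by
    refine NUW_div hK p1 ?_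
    rw [abs_mul, abs_mul, abs_two]
    exact mul_le_mul (by linarith) hx (abs_nonneg _) (by positivity)
  have hm : |X.m (γ v) * (D.1 0 1 + D.1 1 0)| ≤ K * (C1 * K) := by
    rw [abs_mul]
    exact mul_le_mul m1 hs1 (abs_nonneg _) hK0.le
  have hd1 : |D.1 0 1 - D.1 1 0| ≤ C1 ^ 2 + K ^ 2 * C1 + 2 * K ^ 2 * C1 ^ 2 := by
    rw [hd]
    have a1 := abs_sub (W + X.m (γ v) * (D.1 0 1 + D.1 1 0)) (2 * X.q (γ v) * (D.1 0 0 - D.1 1 1) / X.p (γ v))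
    have a2 := abs_add_le W (X.m (γ v) * (D.1 0 1 + D.1 1 0))
    rw [abs_of_nonneg hW0] at a2
    nlinarith
  obtain ⟨M, hM⟩ : ∃ M, M = K * C1 + C1 ^ 2 + K ^ 2 * C1 + 2 * K ^ 2 * C1 ^ 2 := ⟨_, rfl⟩
  have hM0 : 0 ≤ M := by
    rw [hM]
    positivity
  obtain ⟨s1, s2⟩ := abs_le.1 hs1
  obtain ⟨d1, d2⟩ := abs_le.1 hd1
  have hb : |D.1 0 1| ≤ M := by
    rw [abs_le, hM]
    constructor <;> nlinarith
  have hc : |D.1 1 0| ≤ M := by
    rw [abs_le, hM]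
    constructor <;> nlinarith
  have hR : NUW_R K C1 = C1 ^ 2 + 1 + M := by
    rw [hM]
    rfl
  rw [hR]
  have hdet : D.1 0 0 * D.1 1 1 - D.1 0 1 * D.1 1 0 = 1 := by
    have := D.2
    rwa [Matrix.det_fin_two] at this
  have hbc : D.1 0 1 * D.1 1 0 ≤ M ^ 2 := by
    calc D.1 0 1 * D.1 1 0 ≤ |D.1 0 1 * D.1 1 0| := le_abs_self _
      _ = |D.1 0 1| * |D.1 1 0| := abs_mul _ _
      _ ≤ M * M := mul_le_mul hb hc (abs_nonneg _) hM0
      _ = M ^ 2 := by ring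
  have hxx : (D.1 0 0 - D.1 1 1) ^ 2 ≤ (C1 ^ 2) ^ 2 := sq_le_sq' (abs_le.1 hx).1 (abs_le.1 hx).2
  have hss : (D.1 0 0 + D.1 1 1) ^ 2 ≤ (C1 ^ 2 + 2 + 2 * M) ^ 2 := by
    have a1 : (D.1 0 0 + D.1 1 1) ^ 2 = (D.1 0 0 - D.1 1 1) ^ 2 + 4 * (1 + D.1 0 1 * D.1 1 0) := by
      linear_combination 4 * hdet
    have a2 : 0 ≤ C1 ^ 2 := sq_nonneg _
    nlinarith
  have hs3 : |D.1 0 0 + D.1 1 1| ≤ C1 ^ 2 + 2 + 2 * M := abs_le_of_sq_le_sq hss (by positivity)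
  obtain ⟨t1, t2⟩ := abs_le.1 hs3
  obtain ⟨x1, x2⟩ := abs_le.1 hx
  have hC2 : 0 ≤ C1 ^ 2 := sq_nonneg _
  intro i j
  fin_cases i <;> fin_cases j
  · show |D.1 0 0| ≤ C1 ^ 2 + 1 + M
    rw [abs_le]
    constructor <;> linarith
  · show |D.1 0 1| ≤ C1 ^ 2 + 1 + M
    linarith
  · show |D.1 1 0| ≤ C1 ^ 2 + 1 + M
    linarith
  · show |D.1 1 1| ≤ C1 ^ 2 + 1 + M
    rw [abs_le]
    constructor <;> linarith

theorem NUW_R1 {K C1 : ℝ} (hK : 1 ≤ K) (hC : 1 ≤ C1) : 1 ≤ NUW_R K C1 := by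
  unfold NUW_R
  have h1 : 0 ≤ K * C1 + C1 ^ 2 + K ^ 2 * C1 + 2 * K ^ 2 * C1 ^ 2 := by
    have : 0 ≤ K := by linarith
    have : 0 ≤ C1 := by linarith
    positivity
  have h2 : 0 ≤ C1 ^ 2 := sq_nonneg _
  linarith

theorem NUW_ent2 {K C1 : ℝ} {X : Fd} {γ : ℝ → SL(2, ℝ)} (hK : 1 ≤ K) (hX : HF K X) (hγ : UCX C1 X γ) (hC : 1 ≤ C1) {v v' : ℝ}
    (hv : v ∈ Icc (0 : ℝ) 1) (hv' : v' ∈ Icc (0 : ℝ) 1) : ∀ i j, |((γ v)⁻¹ * γ v').1 i j| ≤ NUW_R K C1 := by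
  rcases lt_trichotomy v v' with h | h | h
  · exact NUW_ent hK hX hγ hC hv.1 h hv'.2
  · rw [h, inv_mul_cancel]
    have h1 := NUW_R1 hK hC
    intro i j
    fin_cases i <;> fin_cases j
    · show |(1 : ℝ)| ≤ _
      rw [abs_one]
      exact h1
    · show |(0 : ℝ)| ≤ _
      rw [abs_zero]
      linarith
    · show |(0 : ℝ)| ≤ _
      rw [abs_zero]
      linarith
    · show |(1 : ℝ)| ≤ _
      rw [abs_one]
      exact h1
  · have h1 := NUW_ent hK hX hγ hC hv'.1 h hv.2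
    have h2 : (γ v)⁻¹ * γ v' = ((γ v')⁻¹ * γ v)⁻¹ := by group
    rw [h2]
    obtain ⟨e1, e2, e3, e4⟩ := UWM_inv ((γ v')⁻¹ * γ v)
    intro i j
    fin_cases i <;> fin_cases j
    · show |((γ v')⁻¹ * γ v)⁻¹.1 0 0| ≤ _
      rw [e1]; exact h1 1 1
    · show |((γ v')⁻¹ * γ v)⁻¹.1 0 1| ≤ _
      rw [e3, abs_neg]; exact h1 0 1
    · show |((γ v')⁻¹ * γ v)⁻¹.1 1 0| ≤ _
      rw [e4, abs_neg]; exact h1 1 0
    · show |((γ v')⁻¹ * γ v)⁻¹.1 1 1| ≤ _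
      rw [e2]; exact h1 0 0

/-- the compact set -/
def NUW_K (f : ℝ → SL(2, ℝ) → SL(2, ℝ)) (KG : Set SL(2, ℝ)) (R1 R2 : ℝ) : Set SL(2, ℝ) :=
  (fun x : SL(2, ℝ) × SL(2, ℝ) => x.1 * x.2) ''
    (((fun x : ℝ × SL(2, ℝ) => f x.1 x.2) '' (Icc (0 : ℝ) 1 ×ˢ
      ((fun x : SL(2, ℝ) × SL(2, ℝ) => x.1 * x.2) '' (KG ×ˢ {D : SL(2, ℝ) | ∀ i j, |D.1 i j| ≤ R1})))) ×ˢ
      {D : SL(2, ℝ) | ∀ i j, |D.1 i j| ≤ R2})

theorem NUW_Kc {f : ℝ → SL(2, ℝ) → SL(2, ℝ)} (hf : Continuous (fun x : ℝ × SL(2, ℝ) => f x.1 x.2)) {KG : Set SL(2, ℝ)} (hK : IsCompact KG)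
    (R1 R2 : ℝ) : IsCompact (NUW_K f KG R1 R2) :=
  (((isCompact_Icc.prod ((hK.prod (UWM_cpt R1)).image continuous_mul)).image hf).prod (UWM_cpt R2)).image continuous_mul

theorem NUW_proof (_h1 : VQE.NMB_stmt) (h2 : NTP_stmt) (h3 : NAV_stmt) (h4 : VQE.NUA_stmt) (h5 : VQE.FDK_stmt) (h6 : NCU_stmt) : NUW_stmt := by
  intro K Γ F L X h hK hΓ hF hL hX hfl hh hM e v0 C1 he hv0 hC1
  obtain ⟨C2, ε2, hC2, hε2, hTP⟩ := h2 K hK
  obtain ⟨C3, ε3, hC3, hε3, hAV⟩ := h3 K hK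
  obtain ⟨C4, ε4, hC4, hε4, hCU⟩ := h6 K C1 hK hC1
  obtain ⟨ε, hε⟩ : ∃ ε, ε = min ε2 (min ε3 ε4) := ⟨_, rfl⟩
  have hε0 : 0 < ε := by
    rw [hε]
    exact lt_min hε2 (lt_min hε3 hε4)
  have le2 : ε ≤ ε2 := by
    rw [hε]
    exact min_le_left _ _
  have le3 : ε ≤ ε3 := by
    rw [hε]
    exact (min_le_right _ _).trans (min_le_left _ _)
  have le4 : ε ≤ ε4 := by
    rw [hε]
    exact (min_le_right _ _).trans (min_le_right _ _)
  have hC20 : 0 < C2 := by linarith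
  have hC40 : 0 < C4 := by linarith
  obtain ⟨r, hr⟩ : ∃ r, r = min 1 (min (ε / C2) (ε / C4)) := ⟨_, rfl⟩
  have hr0 : 0 < r := by
    rw [hr]
    exact lt_min one_pos (lt_min (by positivity) (by positivity))
  have hr1 : r ≤ 1 := by
    rw [hr]
    exact min_le_left _ _
  have hr2 : r ≤ ε / C2 := by
    rw [hr]
    exact (min_le_right _ _).trans (min_le_left _ _)
  have hr4 : r ≤ ε / C4 := by
    rw [hr]
    exact (min_le_right _ _).trans (min_le_right _ _)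
  obtain ⟨hst, -⟩ := hTP ε X hε0 le2 hX
  obtain ⟨KF, hKF, hFK⟩ := hF.rel
  have hKG : IsCompact {g : SL(2, ℝ) | g • I ∈ KF} := (GLC).2.2.1 KF hKF
  obtain ⟨R2, hR2⟩ : ∃ R2 : ℝ, R2 = 1 + (C2 + (1 + K) * K) + (C2 + (1 + K) * K) ^ 2 := ⟨_, rfl⟩
  have hQ := NUW_Kc hfl.cont hKG (NUW_R K C1) R2
  obtain ⟨Q, hQdef⟩ : ∃ Q, Q = NUW_K X.f {g : SL(2, ℝ) | g • I ∈ KF} (NUW_R K C1) R2 := ⟨_, rfl⟩
  rw [← hQdef] at hQ
  obtain ⟨C, hC⟩ := h4 Q (1 / C4) hQ (by positivity)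
  obtain ⟨m, hm⟩ := h5 Γ F Q hΓ hF hQ
  set N : ℕ := ⌊1 / r⌋₊ + 1 with hN
  set c0 : ℝ := N * ((C : ℝ) * m * (1 / r ^ 2)) with hc0
  have hc00 : 0 ≤ c0 := by positivity
  set η : ℝ := v0 / (c0 + 1) with hη
  have hη0 : 0 < η := by positivity
  have hcη : c0 * η ≤ v0 := by
    rw [hη, mul_div_assoc', div_le_iff₀ (by linarith)]
    nlinarith
  obtain ⟨T1, hT1⟩ := UWM_cheb hF hfl hh hM (e / 2) η (by linarith) hη0
  have hC30 : 0 < C3 := by linarith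
  have hT00 : 0 ≤ 2 * (C3 * (L + 1) + 2) / e := by positivity
  refine ⟨max T1 (2 * (C3 * (L + 1) + 2) / e + 1), lt_of_lt_of_le (by linarith) (le_max_right _ _), fun T hT γ hγ => ?_⟩
  have hTT1 : T1 ≤ T := le_trans (le_max_left _ _) hT
  have hTT2 : 2 * (C3 * (L + 1) + 2) / e + 1 ≤ T := le_trans (le_max_right _ _) hT
  have hT0 : 0 < T := by linarith
  have hLT : (C3 * (L + 1) + 2) / T ≤ e / 2 := by
    rw [div_le_iff₀ hT0]
    have h7 : 2 * (C3 * (L + 1) + 2) / e ≤ T := by linarith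
    rw [div_le_iff₀ he] at h7
    linarith
  have hcT := UWM_contA hfl.cont hh.cont T
  set A : Set SL(2, ℝ) := {g | e / 2 ≤ |avf X.f h T g - mnG F h|} with hA
  have hAc : IsClosed A := isClosed_le continuous_const ((hcT.sub continuous_const).abs)
  have hAinv : ∀ (γ : Γ) (g : SL(2, ℝ)), (γ : SL(2, ℝ)) * g ∈ A ↔ g ∈ A := by
    intro γ g
    show e / 2 ≤ |avf X.f h T ((γ : SL(2, ℝ)) * g) - mnG F h| ↔ e / 2 ≤ |avf X.f h T g - mnG F h|
    rw [UWM_avinv hfl hh]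
  have hmA : mG (A ∩ Q) ≤ m * ENNReal.ofReal η :=
    (hm A hAc.measurableSet hAinv).trans (mul_le_mul_right (hT1 T hTT1) _)
  set B : Set ℝ := {v ∈ Icc (0 : ℝ) 1 | e ≤ |avf X.f h T (γ v) - mnG F h|} with hB
  have key : ∀ j : ℕ, volume (B ∩ Icc ((j : ℝ) * r) (((j : ℝ) + 1) * r)) ≤
      ENNReal.ofReal ((C : ℝ) * m * η * (1 / r ^ 2)) := by
    intro j
    set J := Icc ((j : ℝ) * r) (((j : ℝ) + 1) * r) with hJ
    have hJd : ∀ v ∈ J, ∀ v' ∈ J, |v - v'| ≤ r := by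
      intro v hv v' hv'
      rw [abs_le]
      constructor
      · have := hv.1; have := hv'.2; linarith
      · have := hv.2; have := hv'.1; linarith
    rcases (B ∩ J).eq_empty_or_nonempty with hE | ⟨vs, hvs⟩
    · rw [hE, measure_empty]
      exact zero_le
    obtain ⟨γ0, hγ0, -⟩ := hF.uniq (γ vs • I)
    have hvsK : (γ0 : SL(2, ℝ)) * γ vs ∈ {g : SL(2, ℝ) | g • I ∈ KF} := by
      show ((γ0 : SL(2, ℝ)) * γ vs) • I ∈ KF
      rw [mul_smul]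
      exact hFK hγ0
    set Θ : (Fin 3 → ℝ) → SL(2, ℝ) := fun z => (γ0 : SL(2, ℝ)) * SbN ε X (z 2) (X.f (z 1) (γ (z 0))) with hΘ
    set Z : Set (Fin 3 → ℝ) := Set.pi univ ![B ∩ J, Icc (0 : ℝ) r, Icc (0 : ℝ) r] with hZ
    have hZ0 : ∀ z ∈ Z, z 0 ∈ B ∩ J := fun z hz => hz 0 (mem_univ _)
    have hZ1 : ∀ z ∈ Z, z 1 ∈ Icc (0 : ℝ) r := fun z hz => hz 1 (mem_univ _)
    have hZ2 : ∀ z ∈ Z, z 2 ∈ Icc (0 : ℝ) r := fun z hz => hz 2 (mem_univ _)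
    have hZ1' : ∀ z ∈ Z, |z 1| ≤ r := fun z hz => by
      rw [abs_of_nonneg (hZ1 z hz).1]; exact (hZ1 z hz).2
    have hZ2' : ∀ z ∈ Z, |z 2| ≤ r := fun z hz => by
      rw [abs_of_nonneg (hZ2 z hz).1]; exact (hZ2 z hz).2
    have hin : ∀ z ∈ Z, Θ z ∈ A ∩ Q := by
      intro z hz
      have hz0 := hZ0 z hz
      obtain ⟨⟨x, y, hSM, hx, hy⟩, hs1, -⟩ := hst (X.f (z 1) (γ (z 0))) (z 2) ((hZ2' z hz).trans hr2)
      constructor
      · rw [hΘ]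
        show (γ0 : SL(2, ℝ)) * SbN ε X (z 2) (X.f (z 1) (γ (z 0))) ∈ A
        rw [hAinv]
        have h7 := hAV Γ ε L X h (X.f (z 1) (γ (z 0))) x y hε0 le3 hL hX hh hSM T hT0
        rw [hx, hy] at h7
        have h8 := UWM_shift hfl.add hfl.cont hh.cont hh.bd (z 1) T hT0 (γ (z 0))
        have h10 : e ≤ |avf X.f h T (γ (z 0)) - mnG F h| := hz0.1.2
        have h11 : 2 * |z 1| / T ≤ 2 / T := by
          refine div_le_div_of_nonneg_right ?_ hT0.le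
          have := hZ1' z hz
          linarith
        obtain ⟨S, hS⟩ : ∃ S, S = SbN ε X (z 2) (X.f (z 1) (γ (z 0))) := ⟨_, rfl⟩
        have hS' : X.f (z 1) (γ (z 0)) * pj X (X.f (z 1) (γ (z 0))) (z 2) (stn ε X (X.f (z 1) (γ (z 0))) (z 2)) = S := by
          rw [hS]
          rfl
        rw [hS'] at h7
        rw [← hS]
        have h12 : |avf X.f h T (γ (z 0)) - mnG F h| ≤ |avf X.f h T S - mnG F h| + |avf X.f h T S - avf X.f h T (X.f (z 1) (γ (z 0)))| +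
            |avf X.f h T (X.f (z 1) (γ (z 0))) - avf X.f h T (γ (z 0))| := by
          have h13 : avf X.f h T (γ (z 0)) - mnG F h = (avf X.f h T S - mnG F h) - (avf X.f h T S - avf X.f h T (X.f (z 1) (γ (z 0)))) -
              (avf X.f h T (X.f (z 1) (γ (z 0))) - avf X.f h T (γ (z 0))) := by ring
          rw [h13]
          exact (abs_sub _ _).trans (add_le_add (abs_sub _ _) le_rfl)
        have h14 : C3 * (L + 1) / T + 2 / T = (C3 * (L + 1) + 2) / T := by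
          rw [← add_div]
        show e / 2 ≤ |avf X.f h T S - mnG F h|
        linarith
      · rw [hQdef]
        refine ⟨((γ0 : SL(2, ℝ)) * X.f (z 1) (γ (z 0)), pj X (X.f (z 1) (γ (z 0))) (z 2) (stn ε X (X.f (z 1) (γ (z 0))) (z 2))), ⟨?_, ?_⟩, ?_⟩
        · refine ⟨(z 1, (γ0 : SL(2, ℝ)) * γ (z 0)), ⟨⟨(hZ1 z hz).1, (hZ1 z hz).2.trans hr1⟩, ?_⟩, ?_⟩
          · refine ⟨((γ0 : SL(2, ℝ)) * γ vs, (γ vs)⁻¹ * γ (z 0)), ⟨hvsK, ?_⟩, ?_⟩
            · exact NUW_ent2 hK hX hγ hC1 hvs.1.1 hz0.1.1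
            · show (γ0 : SL(2, ℝ)) * γ vs * ((γ vs)⁻¹ * γ (z 0)) = (γ0 : SL(2, ℝ)) * γ (z 0)
              group
          · show X.f (z 1) ((γ0 : SL(2, ℝ)) * γ (z 0)) = (γ0 : SL(2, ℝ)) * X.f (z 1) (γ (z 0))
            exact hfl.inv γ0 (z 1) (γ (z 0))
        · show ∀ i j, |(pj X (X.f (z 1) (γ (z 0))) (z 2) (stn ε X (X.f (z 1) (γ (z 0))) (z 2))).1 i j| ≤ R2
          rw [hR2]
          refine NUW_pj hK hX _ ((hZ2' z hz).trans hr1) (hs1.trans ?_)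
          calc C2 * |z 2| ≤ C2 * 1 := mul_le_mul_of_nonneg_left ((hZ2' z hz).trans hr1) hC20.le
            _ = C2 := mul_one _
        · show (γ0 : SL(2, ℝ)) * X.f (z 1) (γ (z 0)) * pj X (X.f (z 1) (γ (z 0))) (z 2) (stn ε X (X.f (z 1) (γ (z 0))) (z 2)) = Θ z
          rw [mul_assoc]
          rfl
    have hsep : ∀ z ∈ Z, ∀ z' ∈ Z, 1 / C4 * dist z z' ≤ nm ((Θ z)⁻¹ * Θ z') := by
      intro z hz z' hz'
      have hz0 := hZ0 z hz
      have hz0' := hZ0 z' hz'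
      have h7 := hCU ε X γ hε0 le4 hX hγ (z 0) (z' 0) (z 1) (z' 1) (z 2) (z' 2) hz0.1.1 hz0'.1.1
        ((hJd _ hz0.2 _ hz0'.2).trans hr4) ((hZ1' z hz).trans hr4) ((hZ1' z' hz').trans hr4) ((hZ2' z hz).trans hr4) ((hZ2' z' hz').trans hr4)
      have h8 : (Θ z)⁻¹ * Θ z' = (SbN ε X (z 2) (X.f (z 1) (γ (z 0))))⁻¹ * SbN ε X (z' 2) (X.f (z' 1) (γ (z' 0))) := by
        show ((γ0 : SL(2, ℝ)) * SbN ε X (z 2) (X.f (z 1) (γ (z 0))))⁻¹ * ((γ0 : SL(2, ℝ)) * SbN ε X (z' 2) (X.f (z' 1) (γ (z' 0)))) = _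
        group
      rw [h8]
      set M := max |z 0 - z' 0| (max |z 1 - z' 1| |z 2 - z' 2|) with hMdef
      have hM0 : 0 ≤ M := le_trans (abs_nonneg _) (le_max_left _ _)
      have h9 : dist z z' ≤ M := by
        rw [dist_pi_le_iff hM0]
        intro i
        fin_cases i
        · show dist (z 0) (z' 0) ≤ M
          rw [Real.dist_eq]
          exact le_max_left _ _
        · show dist (z 1) (z' 1) ≤ M
          rw [Real.dist_eq]
          exact le_trans (le_max_left _ _) (le_max_right _ _)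
        · show dist (z 2) (z' 2) ≤ M
          rw [Real.dist_eq]
          exact le_trans (le_max_right _ _) (le_max_right _ _)
      rw [one_div, inv_mul_le_iff₀ hC40]
      exact h9.trans h7
    have hvol := hC Θ Z (A ∩ Q) (hAc.measurableSet.inter hQ.isClosed.measurableSet) inter_subset_right hin hsep
    have hZv : volume Z = volume (B ∩ J) * (ENNReal.ofReal r * ENNReal.ofReal r) := by
      rw [hZ, volume_pi_pi, Fin.prod_univ_three]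
      show volume (B ∩ J) * volume (Icc (0 : ℝ) r) * volume (Icc (0 : ℝ) r) = _
      rw [Real.volume_Icc, sub_zero, mul_assoc]
    have h15 : volume (B ∩ J) * (ENNReal.ofReal r * ENNReal.ofReal r) ≤ ENNReal.ofReal ((C : ℝ) * m * η) := by
      rw [← hZv]
      refine (hvol.trans (mul_le_mul_right hmA _)).trans (le_of_eq ?_)
      rw [ENNReal.ofReal_mul (by positivity), ENNReal.ofReal_mul (by positivity), ENNReal.ofReal_natCast, ENNReal.ofReal_coe_nnreal, mul_assoc]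
    have h16 : ENNReal.ofReal r * ENNReal.ofReal r * ENNReal.ofReal (1 / r ^ 2) = 1 := by
      rw [← ENNReal.ofReal_mul hr0.le, ← ENNReal.ofReal_mul (by positivity)]
      have h17 : r * r * (1 / r ^ 2) = 1 := by
        field_simp
      rw [h17, ENNReal.ofReal_one]
    calc volume (B ∩ J) = volume (B ∩ J) * (ENNReal.ofReal r * ENNReal.ofReal r) * ENNReal.ofReal (1 / r ^ 2) := by
          rw [mul_assoc, h16, mul_one]
      _ ≤ ENNReal.ofReal ((C : ℝ) * m * η) * ENNReal.ofReal (1 / r ^ 2) := mul_le_mul_left h15 _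
      _ = ENNReal.ofReal ((C : ℝ) * m * η * (1 / r ^ 2)) := (ENNReal.ofReal_mul (by positivity)).symm
  have hcov : B ⊆ ⋃ j ∈ Finset.range N, B ∩ Icc ((j : ℝ) * r) (((j : ℝ) + 1) * r) := by
    intro v hv
    have hv0 : 0 ≤ v := hv.1.1
    have hv1 : v ≤ 1 := hv.1.2
    have h7 : 0 ≤ v / r := by positivity
    refine mem_iUnion₂.2 ⟨⌊v / r⌋₊, ?_, hv, ?_, ?_⟩
    · rw [Finset.mem_range, hN, Nat.lt_add_one_iff]
      exact Nat.floor_le_floor (div_le_div_of_nonneg_right hv1 hr0.le)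
    · rw [← le_div_iff₀ hr0]
      exact Nat.floor_le h7
    · rw [← div_le_iff₀ hr0]
      exact (Nat.lt_floor_add_one _).le
  calc volume B ≤ volume (⋃ j ∈ Finset.range N, B ∩ Icc ((j : ℝ) * r) (((j : ℝ) + 1) * r)) := measure_mono hcov
    _ ≤ ∑ j ∈ Finset.range N, volume (B ∩ Icc ((j : ℝ) * r) (((j : ℝ) + 1) * r)) :=
        measure_biUnion_finset_le _ _
    _ ≤ ∑ _j ∈ Finset.range N, ENNReal.ofReal ((C : ℝ) * m * η * (1 / r ^ 2)) := Finset.sum_le_sum fun j _ => key j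
    _ = ENNReal.ofReal (N * ((C : ℝ) * m * η * (1 / r ^ 2))) := by
        rw [Finset.sum_const, Finset.card_range, nsmul_eq_mul, ← ENNReal.ofReal_natCast N, ← ENNReal.ofReal_mul (Nat.cast_nonneg N)]
    _ ≤ ENNReal.ofReal v0 := by
        refine ENNReal.ofReal_le_ofReal ?_
        calc (N : ℝ) * ((C : ℝ) * m * η * (1 / r ^ 2)) = c0 * η := by rw [hc0]; ring
          _ ≤ v0 := hcη

end

end Pool.Agent.VNE
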